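import Pool.Agent.H370R2.Defs

open Filter Topology Finset

namespace H486.MT

/-- `f i = x^(2i)/(2i)!` at `x² = 1/2` -/
noncomputable def fc (i : ℕ) : ℝ := (1 / 2) ^ i / ((2 * i).factorial : ℝ)
noncomputable def fs (i : ℕ) : ℝ := (1 / 2) ^ i / ((2 * i + 1).factorial : ℝ)

theorem fc_anti : Antitone fc := by
  intro a b hab
  unfold fc
  have h1 : ((1 : ℝ) / 2) ^ b ≤ (1 / 2) ^ a := pow_le_pow_of_le_one (by norm_num) (by norm_num) hab
  have h2 : ((2 * a).factorial : ℝ) ≤ ((2 * b).factorial : ℝ) := by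
    exact_mod_cast Nat.factorial_le (by omega)
  have h3 : (0 : ℝ) < ((2 * a).factorial : ℝ) := by exact_mod_cast Nat.factorial_pos _
  gcongr

theorem fs_anti : Antitone fs := by
  intro a b hab
  unfold fs
  have h1 : ((1 : ℝ) / 2) ^ b ≤ (1 / 2) ^ a := pow_le_pow_of_le_one (by norm_num) (by norm_num) hab
  have h2 : ((2 * a + 1).factorial : ℝ) ≤ ((2 * b + 1).factorial : ℝ) := by
    exact_mod_cast Nat.factorial_le (by omega)
  have h3 : (0 : ℝ) < ((2 * a + 1).factorial : ℝ) := by exact_mod_cast Nat.factorial_pos _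
  gcongr

theorem xsq (x : ℝ) (hx : x = 1 / Real.sqrt 2) (i : ℕ) : x ^ (2 * i) = (1 / 2) ^ i := by
  rw [pow_mul, hx, div_pow, Real.sq_sqrt (by norm_num), one_pow]

theorem cos_le : Real.cos (1 / Real.sqrt 2) ≤ 1 - 1 / 4 + 1 / 96 - 1 / 5760 + 1 / 645120 := by
  set x : ℝ := 1 / Real.sqrt 2 with hx
  have h := (Real.hasSum_cos x).tendsto_sum_nat
  have h2 : Tendsto (fun n ↦ ∑ i ∈ range n, (-1) ^ i * fc i) atTop (𝓝 (Real.cos x)) := by
    refine h.congr fun n => Finset.sum_congr rfl fun i _ => ?_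
    unfold fc
    rw [xsq x hx]
    ring
  have h3 := fc_anti.tendsto_le_alternating_series h2 2
  refine h3.trans (le_of_eq ?_)
  simp only [fc, Finset.sum_range_succ, Finset.sum_range_zero]
  norm_num [Nat.factorial]

theorem sin_ge : (1 - 1 / 12 + 1 / 480 - 1 / 40320 : ℝ) * (1 / Real.sqrt 2) ≤
    Real.sin (1 / Real.sqrt 2) := by
  set x : ℝ := 1 / Real.sqrt 2 with hx
  have hx0 : 0 < x := by positivity
  have h := (Real.hasSum_sin x).tendsto_sum_nat
  have h2 : Tendsto (fun n ↦ ∑ i ∈ range n, (-1) ^ i * fs i) atTop (𝓝 (Real.sin x / x)) := by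
    have h4 := h.div_const x
    refine h4.congr fun n => ?_
    rw [Finset.sum_div]
    refine Finset.sum_congr rfl fun i _ => ?_
    unfold fs
    rw [pow_succ, xsq x hx]
    field_simp
  have h3 := fs_anti.alternating_series_le_tendsto h2 2
  rw [le_div_iff₀ hx0] at h3
  refine (le_of_eq ?_).trans h3
  congr 1
  simp only [fs, Finset.sum_range_succ, Finset.sum_range_zero]
  norm_num [Nat.factorial]

theorem cMTinv_lt' : H370.cMTinv < 1.3275 := by
  unfold H370.cMTinv
  rw [Real.cot_eq_cos_div_sin]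
  have hs2 : (0 : ℝ) < Real.sqrt 2 := by positivity
  have hc := cos_le
  have hs := sin_ge
  set x : ℝ := 1 / Real.sqrt 2 with hx
  have hx0 : 0 < x := by positivity
  have hsp : 0 < Real.sin x := lt_of_lt_of_le (by positivity) hs
  have e : Real.cos x / Real.sin x / Real.sqrt 2 = Real.cos x * x / Real.sin x := by
    rw [hx]; field_simp
  rw [e]
  have : Real.cos x * x / Real.sin x < 0.8275 := by
    rw [div_lt_iff₀ hsp]
    have h1 : Real.cos x * x ≤ (1 - 1 / 4 + 1 / 96 - 1 / 5760 + 1 / 645120) * x :=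
      mul_le_mul_of_nonneg_right hc hx0.le
    have h2 : (0.8275 : ℝ) * ((1 - 1 / 12 + 1 / 480 - 1 / 40320) * x) ≤ 0.8275 * Real.sin x :=
      mul_le_mul_of_nonneg_left hs (by norm_num)
    refine lt_of_le_of_lt h1 (lt_of_lt_of_le ?_ h2)
    rw [← mul_assoc]
    exact mul_lt_mul_of_pos_right (by norm_num) hx0
  linarith

end H486.MT
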