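import Pool.Agent.H486R2.RedA

set_option autoImplicit false

namespace Pool.Agent.H486R2.Red

open ArithmeticFunction Matrix Finset Polynomial

/-- The Redheffer matrix, with complex entries. -/
abbrev redC (n : ℕ) : Matrix (Fin n) (Fin n) ℂ := redK ℂ n

lemma bf_eval (z : ℂ) (m : ℕ) : (bf (X : ℂ[X]) m).eval z = bf z m := by
  induction m using Nat.strong_induction_on with
  | _ m ih =>
    rcases Nat.lt_or_ge m 2 with hm | hm
    · interval_cases m
      · simp
      · simp [bf_one]
    · rw [bf_rec _ hm, bf_rec _ hm, Polynomial.eval_mul, Polynomial.eval_X,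
        Polynomial.eval_finsetSum]
      congr 1
      refine Finset.sum_congr rfl fun d hd => ?_
      exact ih d (Nat.mem_properDivisors.1 hd).2

lemma bf_natDegree (m : ℕ) : (bf (X : ℂ[X]) m).natDegree ≤ Nat.log 2 m := by
  induction m using Nat.strong_induction_on with
  | _ m ih =>
    rcases Nat.lt_or_ge m 2 with hm | hm
    · interval_cases m
      · simp
      · simp [bf_one]
    · rw [bf_rec _ hm]
      have h1 : (∑ d ∈ m.properDivisors, bf (X : ℂ[X]) d).natDegree ≤ Nat.log 2 m - 1 := by
        apply Polynomial.natDegree_sum_le_of_forall_le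
        intro d hd
        obtain ⟨hdv, hlt⟩ := Nat.mem_properDivisors.1 hd
        refine (ih d hlt).trans ?_
        obtain ⟨c, hc⟩ := hdv
        have hd0 : 0 < d := by
          rcases Nat.eq_zero_or_pos d with h | h
          · subst h; omega
          · exact h
        have hc2 : 2 ≤ c := by
          rcases c with _ | _ | c
          · omega
          · omega
          · omega
        have h2 : d * 2 ≤ m := by
          rw [hc]; exact Nat.mul_le_mul_left _ hc2
        have h3 : Nat.log 2 (d * 2) = Nat.log 2 d + 1 := Nat.log_mul_base (by norm_num) (by omega)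
        have h4 := Nat.log_mono_right (b := 2) h2
        omega
      have h5 : 1 ≤ Nat.log 2 m := Nat.log_pos (by norm_num) hm
      refine (Polynomial.natDegree_mul_le).trans ?_
      rw [Polynomial.natDegree_X]
      omega

/-- `G_n(z) = det (1 - z (A - 1))` -/
noncomputable def G (n : ℕ) (z : ℂ) : ℂ := (1 - z • (redC n - 1)).det

lemma G_eq (n : ℕ) (z : ℂ) : G n z = 1 - z * ∑ m ∈ Finset.Icc 2 n, bf z m := det_id z n

lemma card_roots (n : ℕ) : Multiset.card (redC n).charpoly.roots = n := by
  rw [Polynomial.splits_iff_card_roots.1 (IsAlgClosed.splits _), Matrix.charpoly_natDegree_eq_dim,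
    Fintype.card_fin]

lemma G_prod (n : ℕ) (z : ℂ) :
    G n z = ((redC n).charpoly.roots.map (fun x => 1 - z * (x - 1))).prod := by
  by_cases hz : z = 0
  · subst hz
    simp [G]
  · have h1 : (1 - z • (redC n - 1)) = z • (Matrix.scalar (Fin n) ((1 + z) / z) - redC n) := by
      ext i j
      by_cases hij : i = j
      · subst hij
        simp
        field_simp
        ring
      · simp [hij]
    unfold G
    rw [h1, Matrix.det_smul, ← Matrix.eval_charpoly, Fintype.card_fin]
    have h2 : (redC n).charpoly.eval ((1 + z) / z)
        = ((redC n).charpoly.roots.map (fun x => (1 + z) / z - x)).prod := by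
      conv_lhs => rw [(IsAlgClosed.splits (redC n).charpoly).eq_prod_roots_of_monic
        (Matrix.charpoly_monic _)]
      rw [Polynomial.eval_multiset_prod, Multiset.map_map]
      simp
    rw [h2]
    have h3 : z ^ n = ((redC n).charpoly.roots.map (fun _ => z)).prod := by
      rw [Multiset.map_const', Multiset.prod_replicate, card_roots]
    rw [h3, ← Multiset.prod_map_mul]
    congr 1
    refine Multiset.map_congr rfl fun x _ => ?_
    field_simp
    ring

lemma card_filter_eq_sum {α : Type*} (p : α → Prop) [DecidablePred p] (M : Multiset α) :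
    Multiset.card (M.filter p) = (M.map (fun x => if p x then 1 else 0)).sum := by
  induction M using Multiset.induction_on with
  | empty => simp
  | cons a s ih =>
    by_cases ha : p a
    · rw [Multiset.filter_cons_of_pos _ ha, Multiset.card_cons, Multiset.map_cons,
        Multiset.sum_cons, ih, if_pos ha, add_comm]
    · rw [Multiset.filter_cons_of_neg _ ha, Multiset.map_cons,
        Multiset.sum_cons, ih, if_neg ha, zero_add]

/-- At most `log₂ n + 1` eigenvalues differ from `1`. -/
lemma card_ne_one (n : ℕ) :
    Multiset.card ((redC n).charpoly.roots.filter (fun x => x ≠ 1)) ≤ Nat.log 2 n + 1 := by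
  set M := (redC n).charpoly.roots with hM
  set P : ℂ[X] := (M.map (fun x => 1 - X * C (x - 1))).prod with hP
  have h1 : P = 1 - X * ∑ m ∈ Finset.Icc 2 n, bf (X : ℂ[X]) m := by
    apply Polynomial.funext
    intro z
    rw [hP, Polynomial.eval_multiset_prod, Multiset.map_map]
    have h2 := G_prod n z
    rw [G_eq] at h2
    simp only [Polynomial.eval_sub, Polynomial.eval_one, Polynomial.eval_mul, Polynomial.eval_X,
      Polynomial.eval_finsetSum, bf_eval]
    rw [h2]
    congr 1
    refine Multiset.map_congr rfl fun x _ => ?_
    simp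
  have h2 : P.natDegree ≤ Nat.log 2 n + 1 := by
    rw [h1]
    refine (Polynomial.natDegree_sub_le _ _).trans ?_
    rw [Polynomial.natDegree_one]
    refine max_le (Nat.zero_le _) ?_
    refine (Polynomial.natDegree_mul_le).trans ?_
    rw [Polynomial.natDegree_X]
    have : (∑ m ∈ Finset.Icc 2 n, bf (X : ℂ[X]) m).natDegree ≤ Nat.log 2 n := by
      apply Polynomial.natDegree_sum_le_of_forall_le
      intro d hd
      exact (bf_natDegree d).trans (Nat.log_mono_right (Finset.mem_Icc.1 hd).2)
    omega
  have h3 : P.natDegree = (M.map (fun x => (1 - X * C (x - 1) : ℂ[X]).natDegree)).sum := by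
    rw [hP, Polynomial.natDegree_multiset_prod]
    · rw [Multiset.map_map]
      rfl
    · intro h0
      rw [Multiset.mem_map] at h0
      obtain ⟨x, _, hx⟩ := h0
      have := congrArg (Polynomial.eval 0) hx
      simp at this
  have h4 : ∀ x : ℂ, (if x ≠ 1 then 1 else 0) ≤ (1 - X * C (x - 1) : ℂ[X]).natDegree := by
    intro x
    split_ifs with hx
    · have hx' : x - 1 ≠ 0 := sub_ne_zero.2 hx
      have : (1 - X * C (x - 1) : ℂ[X]).natDegree = 1 := by
        have e : (1 - X * C (x - 1) : ℂ[X]) = C (-(x - 1)) * X + C 1 := by
          simp only [map_neg, map_one]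
          ring
        rw [e]
        exact Polynomial.natDegree_linear (neg_ne_zero.2 hx')
      omega
    · exact Nat.zero_le _
  calc Multiset.card (M.filter (fun x => x ≠ 1))
      = (M.map (fun x => if x ≠ 1 then 1 else 0)).sum := by
        exact card_filter_eq_sum _ M
    _ ≤ (M.map (fun x => (1 - X * C (x - 1) : ℂ[X]).natDegree)).sum := by
        apply Multiset.sum_map_le_sum_map
        intro x _
        exact h4 x
    _ = P.natDegree := h3.symm
    _ ≤ _ := h2

end Pool.Agent.H486R2.Red
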