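import Pool.Agent.H486R2.RedD

set_option autoImplicit false

namespace Pool.Agent.H486R2.Red

open ArithmeticFunction Finset Filter

lemma aux1 {r S A : ℝ} (hr : 0 ≤ r) (hr1 : r ≤ 1) (hS1 : 1 ≤ S) (hSq : S ^ 2 = A)
    (hA : 1 ≤ A) : (1 + r ^ 2 * (1 + S) ^ 2) ^ 2 ≤ 25 * A ^ 2 := by
  have h5 : (1 + S) ^ 2 ≤ 4 * A := by
    rw [← hSq]; nlinarith
  have h6 : r ^ 2 ≤ 1 := by nlinarith
  have h7 : 0 ≤ (1 + S) ^ 2 := by positivity
  have h8 : 0 ≤ 1 + r ^ 2 * (1 + S) ^ 2 := by positivity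
  have h9 : 1 + r ^ 2 * (1 + S) ^ 2 ≤ 5 * A := by nlinarith
  calc (1 + r ^ 2 * (1 + S) ^ 2) ^ 2 ≤ (5 * A) ^ 2 := pow_le_pow_left₀ h8 h9 2
    _ = 25 * A ^ 2 := by ring

lemma aux2 {R r : ℝ} (hr : 0 < r) (hr1 : r ≤ 1)
    (hr2 : r ^ 2 * (1 + R) ^ 2 ≤ r / 4) {n : ℕ} (hn : 1 ≤ n) :
    (1 + r ^ 2 * (1 + R) ^ 2) ^ (Nat.log 2 n + 1) ≤ 2 * (n : ℝ) ^ (r / 2) := by
  have hy : 1 + r ^ 2 * (1 + R) ^ 2 ≤ (2 : ℝ) ^ (r / 2) := by
    have h9 : (2 : ℝ) ^ (r / 2) = Real.exp (Real.log 2 * (r / 2)) :=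
      Real.rpow_def_of_pos (by norm_num) _
    rw [h9]
    have h10 := Real.add_one_le_exp (Real.log 2 * (r / 2))
    have h11 := Real.log_two_gt_d9
    have h12 : 1 / 2 * (r / 2) ≤ Real.log 2 * (r / 2) :=
      mul_le_mul_of_nonneg_right (by linarith) (by positivity)
    linarith
  rw [pow_succ, mul_comm]
  apply mul_le_mul
  · linarith
  · calc (1 + r ^ 2 * (1 + R) ^ 2) ^ (Nat.log 2 n)
        ≤ ((2 : ℝ) ^ (r / 2)) ^ (Nat.log 2 n) := by
          apply pow_le_pow_left₀ _ hy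
          positivity
      _ = ((2 : ℝ) ^ (Nat.log 2 n)) ^ (r / 2) := by
          rw [← Real.rpow_natCast, ← Real.rpow_natCast, ← Real.rpow_mul (by norm_num),
            ← Real.rpow_mul (by norm_num), mul_comm]
      _ ≤ (n : ℝ) ^ (r / 2) := by
          apply Real.rpow_le_rpow (by positivity) _ (by positivity)
          exact_mod_cast Nat.pow_log_le_self 2 (by omega)
  · positivity
  · norm_num

lemma T_neg_bound {R r : ℝ} (hR : 1 ≤ R) (hr : 0 < r) (hr1 : r ≤ 1)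
    (hr2 : r ^ 2 * (1 + R) ^ 2 ≤ r / 4) {D : ℕ} (hD : 1 ≤ D)
    (hsum : 1 ≤ r * ∑ d ∈ Finset.Ioc 1 D, (d : ℝ) ^ (-(1 + r / 2))) {N : ℕ}
    (h : ∀ n ≥ N, Multiset.card ((redC n).charpoly.roots.filter (fun x => R < ‖x‖)) ≤ 2)
    {ε : ℝ} (hε : 0 < ε) :
    ∃ C : ℝ, ∀ n : ℕ, 1 ≤ n → |T (-r) n| ≤ C * (n : ℝ) ^ (1 + ε) := by
  set β : ℝ := 1 + r / 2 with hβ
  have hβ0 : 0 < β := by rw [hβ]; positivity
  have hD0 : (0 : ℝ) < D := by exact_mod_cast hD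
  set c : ℝ := (D : ℝ) ^ (-β) with hc
  have hc0 : 0 < c := by rw [hc]; positivity
  -- eventually `r c n^β / 2 ≥ 2`
  obtain ⟨N1, hN1⟩ : ∃ N1 : ℕ, ∀ n ≥ N1, 2 ≤ r * c / 2 * (n : ℝ) ^ β := by
    have h1 : Tendsto (fun n : ℕ => r * c / 2 * (n : ℝ) ^ β) atTop atTop := by
      apply Tendsto.const_mul_atTop (by positivity)
      exact (tendsto_rpow_atTop hβ0).comp tendsto_natCast_atTop_atTop
    exact eventually_atTop.1 (h1.eventually_ge_atTop 2)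
  -- main bound for large n
  have hmain : ∀ n : ℕ, 1 ≤ n → N ≤ n → N1 ≤ n →
      ‖G n (-(r : ℂ))‖ ≤ 100 / (r * c) * (n * (2 + Real.log n) ^ 2) := by
    intro n hn hnN hnN1
    have hn0 : (0 : ℝ) < n := by exact_mod_cast hn
    have hn1 : (1 : ℝ) ≤ n := by exact_mod_cast hn
    have hlog : 0 ≤ Real.log n := Real.log_nonneg hn1
    have hT := T_lower hr hβ0 hD hsum n n hn1 (by simp)
    rw [Nat.floor_natCast] at hT
    have hG1 : r * c / 2 * (n : ℝ) ^ β ≤ ‖G n (r : ℂ)‖ := by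
      rw [G_eq_T r hn, Complex.norm_real, Real.norm_eq_abs]
      have h2 := hN1 n hnN1
      have h3 : r * (c * (n : ℝ) ^ β) ≤ r * T r n := mul_le_mul_of_nonneg_left hT hr.le
      have h4 := neg_abs_le (1 - r * (T r n - 1))
      nlinarith
    have hGG := GG_bound (n := n) (r := r) hR (h n hnN)
    rw [norm_mul] at hGG
    -- first factor
    have hS : (1 : ℝ) ≤ n * (2 + Real.log n) := by nlinarith
    have hS1 : (1 : ℝ) ≤ Real.sqrt (n * (2 + Real.log n)) := Real.one_le_sqrt.2 hS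
    have hSq : Real.sqrt (n * (2 + Real.log n)) ^ 2 = n * (2 + Real.log n) :=
      Real.sq_sqrt (by linarith)
    have hA2 : (1 + r ^ 2 * (1 + Real.sqrt (n * (2 + Real.log n))) ^ 2) ^ 2
        ≤ 25 * (n * (2 + Real.log n)) ^ 2 := aux1 hr.le hr1 hS1 hSq hS
    -- second factor
    have hB : (1 + r ^ 2 * (1 + R) ^ 2) ^ (Nat.log 2 n + 1) ≤ 2 * (n : ℝ) ^ (r / 2) :=
      aux2 hr hr1 hr2 hn
    have hprod : ‖G n (r : ℂ)‖ * ‖G n (-(r : ℂ))‖ ≤
        (25 * (n * (2 + Real.log n)) ^ 2) * (2 * (n : ℝ) ^ (r / 2)) := by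
      refine hGG.trans ?_
      apply mul_le_mul hA2 hB (by positivity) (by positivity)
    have hprod2 : (r * c / 2 * (n : ℝ) ^ β) * ‖G n (-(r : ℂ))‖ ≤
        (25 * (n * (2 + Real.log n)) ^ 2) * (2 * (n : ℝ) ^ (r / 2)) :=
      (mul_le_mul_of_nonneg_right hG1 (norm_nonneg _)).trans hprod
    have hnβ : (n : ℝ) ^ β = n * (n : ℝ) ^ (r / 2) := by
      rw [hβ, Real.rpow_add hn0, Real.rpow_one]
    rw [hnβ] at hprod2
    have hpos : 0 < (n : ℝ) * (n : ℝ) ^ (r / 2) := by positivity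
    have h12 : (r * c / 2) * ‖G n (-(r : ℂ))‖ ≤ 50 * (n * (2 + Real.log n) ^ 2) := by
      have h13 : ((n : ℝ) * (n : ℝ) ^ (r / 2)) * ((r * c / 2) * ‖G n (-(r : ℂ))‖) ≤
          ((n : ℝ) * (n : ℝ) ^ (r / 2)) * (50 * (n * (2 + Real.log n) ^ 2)) := by
        calc ((n : ℝ) * (n : ℝ) ^ (r / 2)) * ((r * c / 2) * ‖G n (-(r : ℂ))‖)
            = (r * c / 2 * (n * (n : ℝ) ^ (r / 2))) * ‖G n (-(r : ℂ))‖ := by ring
          _ ≤ _ := hprod2
          _ = _ := by ring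
      exact le_of_mul_le_mul_left h13 hpos
    have hrc : 0 < r * c := by positivity
    rw [div_mul_eq_mul_div, le_div_iff₀ hrc]
    linarith
  -- logs
  have hlogb : ∀ n : ℕ, 1 ≤ n →
      (n : ℝ) * (2 + Real.log n) ^ 2 ≤ (2 + 2 / ε) ^ 2 * (n : ℝ) ^ (1 + ε) := by
    intro n hn
    have hn0 : (0 : ℝ) < n := by exact_mod_cast hn
    have hn1 : (1 : ℝ) ≤ n := by exact_mod_cast hn
    have h1 : Real.log n ≤ (n : ℝ) ^ (ε / 2) / (ε / 2) :=
      Real.log_le_rpow_div hn0.le (by positivity)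
    have h2 : 1 ≤ (n : ℝ) ^ (ε / 2) := Real.one_le_rpow hn1 (by positivity)
    have h3 : 2 + Real.log n ≤ (2 + 2 / ε) * (n : ℝ) ^ (ε / 2) := by
      have : (n : ℝ) ^ (ε / 2) / (ε / 2) = 2 / ε * (n : ℝ) ^ (ε / 2) := by field_simp
      rw [this] at h1
      linarith
    have h4 : 0 ≤ 2 + Real.log n := by
      have := Real.log_nonneg hn1
      linarith
    have h5 : (2 + Real.log n) ^ 2 ≤ ((2 + 2 / ε) * (n : ℝ) ^ (ε / 2)) ^ 2 :=
      pow_le_pow_left₀ h4 h3 2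
    have h6 : ((n : ℝ) ^ (ε / 2)) ^ 2 = (n : ℝ) ^ ε := by
      rw [← Real.rpow_natCast, ← Real.rpow_mul hn0.le]
      congr 1
      push_cast
      ring
    rw [mul_pow, h6] at h5
    rw [Real.rpow_add hn0, Real.rpow_one]
    calc (n : ℝ) * (2 + Real.log n) ^ 2 ≤ n * ((2 + 2 / ε) ^ 2 * (n : ℝ) ^ ε) :=
          mul_le_mul_of_nonneg_left h5 hn0.le
      _ = _ := by ring
  set N2 := max N N1 with hN2
  set C1 : ℝ := (100 / (r * c) * (2 + 2 / ε) ^ 2 + 2) / r with hC1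
  have hC1' : 0 ≤ C1 := by rw [hC1]; positivity
  refine ⟨C1 + ∑ m ∈ Finset.range N2, |T (-r) m|, ?_⟩
  intro n hn
  have hn1 : (1 : ℝ) ≤ n := by exact_mod_cast hn
  have hpow : (1 : ℝ) ≤ (n : ℝ) ^ (1 + ε) := Real.one_le_rpow hn1 (by positivity)
  have hsum0 : 0 ≤ ∑ m ∈ Finset.range N2, |T (-r) m| := Finset.sum_nonneg fun _ _ => abs_nonneg _
  rcases lt_or_ge n N2 with hlt | hge
  · have h1 : |T (-r) n| ≤ ∑ m ∈ Finset.range N2, |T (-r) m| :=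
      Finset.single_le_sum (f := fun m => |T (-r) m|) (fun _ _ => abs_nonneg _)
        (Finset.mem_range.2 hlt)
    have h2 : C1 + ∑ m ∈ Finset.range N2, |T (-r) m| ≤
        (C1 + ∑ m ∈ Finset.range N2, |T (-r) m|) * (n : ℝ) ^ (1 + ε) :=
      le_mul_of_one_le_right (by linarith) hpow
    linarith
  · have h1 := hmain n hn (le_trans (le_max_left _ _) hge) (le_trans (le_max_right _ _) hge)
    have h2 : G n (-(r : ℂ)) = ((1 - (-r) * (T (-r) n - 1) : ℝ) : ℂ) := by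
      rw [← G_eq_T (-r) hn]
      push_cast
      rfl
    rw [h2, Complex.norm_real, Real.norm_eq_abs] at h1
    have h3 := hlogb n hn
    have h4 : 100 / (r * c) * (n * (2 + Real.log n) ^ 2) ≤
        100 / (r * c) * ((2 + 2 / ε) ^ 2 * (n : ℝ) ^ (1 + ε)) :=
      mul_le_mul_of_nonneg_left h3 (by positivity)
    have h5 : r * |T (-r) n| ≤ (100 / (r * c) * (2 + 2 / ε) ^ 2 + 2) * (n : ℝ) ^ (1 + ε) := by
      have h6 : |r * T (-r) n| ≤ |1 - (-r) * (T (-r) n - 1)| + |(-1 : ℝ) + r| := by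
        calc |r * T (-r) n| = |(1 - (-r) * (T (-r) n - 1)) + (-1 + r)| := by congr 1; ring
          _ ≤ _ := abs_add_le _ _
      rw [abs_mul, abs_of_pos hr] at h6
      have h7 : |(-1 : ℝ) + r| ≤ 2 := by rw [abs_le]; constructor <;> linarith
      linarith
    have h8 : |T (-r) n| ≤ C1 * (n : ℝ) ^ (1 + ε) := by
      rw [hC1, div_mul_eq_mul_div, le_div_iff₀ hr]
      linarith
    have h9 : 0 ≤ (∑ m ∈ Finset.range N2, |T (-r) m|) * (n : ℝ) ^ (1 + ε) :=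
      mul_nonneg hsum0 (by linarith)
    linarith

end Pool.Agent.H486R2.Red
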