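import Pool.Agent.H486R2.RedE

set_option autoImplicit false

namespace Pool.Agent.H486R2.Red

open ArithmeticFunction Filter MeasureTheory Set

/-- the integrand `T(x/(d+1)) x^{-s-1}` -/
noncomputable def Fd (z : ℝ) (s : ℂ) (d : ℕ) (x : ℝ) : ℂ :=
  ((T z ⌊x / (d + 1 : ℝ)⌋₊ : ℝ) : ℂ) * (x : ℂ) ^ (-s - 1)

lemma Fd_zero (z : ℝ) (s : ℂ) (x : ℝ) :
    Fd z s 0 x = ((T z ⌊x⌋₊ : ℝ) : ℂ) * (x : ℂ) ^ (-s - 1) := by
  simp [Fd]

lemma Fd_scale (z : ℝ) (s : ℂ) (d : ℕ) {x : ℝ} (hx : 0 < x) :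
    Fd z s d x = ((d + 1 : ℝ) : ℂ) ^ (-s - 1) * Fd z s 0 ((d + 1 : ℝ)⁻¹ * x) := by
  have hd : (0 : ℝ) < (d + 1 : ℝ)⁻¹ := by positivity
  have hd' : (0 : ℝ) < (d + 1 : ℝ) := by positivity
  rw [Fd_zero, Fd]
  rw [show (d + 1 : ℝ)⁻¹ * x = x / (d + 1 : ℝ) by field_simp]
  have h1 : (x : ℂ) = ((d + 1 : ℝ) : ℂ) * ((x / (d + 1 : ℝ) : ℝ) : ℂ) := by
    rw [← Complex.ofReal_mul]
    congr 1
    field_simp
  conv_lhs => rw [h1, Complex.mul_cpow_ofReal_nonneg hd'.le (by positivity)]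
  ring

lemma Fd0_meas (z : ℝ) (s : ℂ) : Measurable (Fd z s 0) := by
  have h1 : Measurable (fun x : ℝ => T z ⌊x⌋₊) :=
    (measurable_from_nat (f := T z)).comp Nat.measurable_floor
  have h2 : Measurable (fun x : ℝ => (x : ℂ) ^ (-s - 1)) := by
    exact Complex.measurable_ofReal.pow_const _
  have : Fd z s 0 = fun x : ℝ => ((T z ⌊x⌋₊ : ℝ) : ℂ) * (x : ℂ) ^ (-s - 1) := by
    funext x; exact Fd_zero z s x
  rw [this]
  exact (Complex.measurable_ofReal.comp h1).mul h2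

lemma Fd0_integrable {z C ε : ℝ} (hε : 0 < ε) (hC : ∀ n : ℕ, 1 ≤ n → |T z n| ≤ C * (n : ℝ) ^ (1 + ε))
    {s : ℂ} (hs : 1 + ε < s.re) : IntegrableOn (Fd z s 0) (Ioi 0) := by
  have hC0 : 0 ≤ C := by
    have := hC 1 le_rfl
    simp at this
    exact le_trans (abs_nonneg _) this
  have h01 : IntegrableOn (Fd z s 0) (Ioo 0 1) := by
    have : ∀ x ∈ Ioo (0 : ℝ) 1, Fd z s 0 x = 0 := by
      intro x hx
      rw [Fd_zero, Nat.floor_eq_zero.2 hx.2, T_zero]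
      simp
    refine (integrableOn_congr_fun this measurableSet_Ioo).2 ?_
    exact integrableOn_zero
  have h1 : IntegrableOn (Fd z s 0) (Ici 1) := by
    have hb : IntegrableOn (fun x : ℝ => C * x ^ (1 + ε + (-s.re - 1))) (Ici 1) := by
      rw [integrableOn_Ici_iff_integrableOn_Ioi]
      apply Integrable.const_mul
      exact integrableOn_Ioi_rpow_of_lt (by linarith) one_pos
    refine Integrable.mono' hb (Fd0_meas z s).aestronglyMeasurable ?_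
    rw [ae_restrict_iff' measurableSet_Ici]
    filter_upwards with x hx
    have hx1 : (1 : ℝ) ≤ x := hx
    have hx0 : 0 < x := by linarith
    rw [Fd_zero, norm_mul, Complex.norm_real, Real.norm_eq_abs,
      Complex.norm_cpow_eq_rpow_re_of_pos hx0]
    have h2 : (-s - 1).re = -s.re - 1 := by simp
    rw [h2, Real.rpow_add hx0, ← mul_assoc]
    apply mul_le_mul_of_nonneg_right _ (by positivity)
    have h3 : 1 ≤ ⌊x⌋₊ := (Nat.one_le_floor_iff x).2 hx1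
    refine (hC _ h3).trans ?_
    apply mul_le_mul_of_nonneg_left _ hC0
    exact Real.rpow_le_rpow (by positivity) (Nat.floor_le hx0.le) (by positivity)
  have : Ioi (0 : ℝ) = Ioo 0 1 ∪ Ici 1 := by
    ext x
    simp only [mem_Ioi, mem_union, mem_Ioo, mem_Ici]
    constructor
    · intro h
      rcases lt_or_ge x 1 with h1 | h1
      · exact Or.inl ⟨h, h1⟩
      · exact Or.inr h1
    · rintro (⟨h, _⟩ | h)
      · exact h
      · linarith
  rw [this]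
  exact h01.union h1

lemma integral_Fd (z : ℝ) (s : ℂ) (d : ℕ) :
    ∫ x in Ioi (0 : ℝ), Fd z s d x =
      ((d + 1 : ℝ) : ℂ) ^ (-s) * ∫ x in Ioi (0 : ℝ), Fd z s 0 x := by
  have hd' : (0 : ℝ) < (d + 1 : ℝ) := by positivity
  have hd : (0 : ℝ) < (d + 1 : ℝ)⁻¹ := by positivity
  have h1 : ∫ x in Ioi (0 : ℝ), Fd z s d x =
      ∫ x in Ioi (0 : ℝ), ((d + 1 : ℝ) : ℂ) ^ (-s - 1) * Fd z s 0 ((d + 1 : ℝ)⁻¹ * x) := by
    apply setIntegral_congr_fun measurableSet_Ioi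
    intro x hx
    exact Fd_scale z s d hx
  rw [h1, integral_const_mul, integral_comp_mul_left_Ioi (fun y => Fd z s 0 y) 0 hd, inv_inv,
    mul_zero, Complex.real_smul, ← mul_assoc]
  congr 1
  have hne : ((d + 1 : ℝ) : ℂ) ≠ 0 := by
    exact_mod_cast hd'.ne'
  rw [Complex.cpow_sub _ _ hne, Complex.cpow_one]
  field_simp

lemma norm_Fd_scale (z : ℝ) (s : ℂ) (d : ℕ) {x : ℝ} (hx : 0 < x) :
    ‖Fd z s d x‖ = (d + 1 : ℝ) ^ (-s.re - 1) * ‖Fd z s 0 ((d + 1 : ℝ)⁻¹ * x)‖ := by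
  have hd' : (0 : ℝ) < (d + 1 : ℝ) := by positivity
  rw [Fd_scale z s d hx, norm_mul, Complex.norm_cpow_eq_rpow_re_of_pos hd']
  congr 2
  
lemma integral_norm_Fd (z : ℝ) (s : ℂ) (d : ℕ) :
    ∫ x in Ioi (0 : ℝ), ‖Fd z s d x‖ =
      (d + 1 : ℝ) ^ (-s.re) * ∫ x in Ioi (0 : ℝ), ‖Fd z s 0 x‖ := by
  have hd' : (0 : ℝ) < (d + 1 : ℝ) := by positivity
  have hd : (0 : ℝ) < (d + 1 : ℝ)⁻¹ := by positivity
  have h1 : ∫ x in Ioi (0 : ℝ), ‖Fd z s d x‖ =
      ∫ x in Ioi (0 : ℝ), (d + 1 : ℝ) ^ (-s.re - 1) * ‖Fd z s 0 ((d + 1 : ℝ)⁻¹ * x)‖ := by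
    apply setIntegral_congr_fun measurableSet_Ioi
    intro x hx
    exact norm_Fd_scale z s d hx
  rw [h1, integral_const_mul, integral_comp_mul_left_Ioi (fun y => ‖Fd z s 0 y‖) 0 hd, inv_inv,
    mul_zero, smul_eq_mul, ← mul_assoc]
  congr 1
  rw [Real.rpow_sub hd', Real.rpow_one]
  field_simp

lemma Fd_integrable {z C ε : ℝ} (hε : 0 < ε) (hC : ∀ n : ℕ, 1 ≤ n → |T z n| ≤ C * (n : ℝ) ^ (1 + ε))
    {s : ℂ} (hs : 1 + ε < s.re) (d : ℕ) : IntegrableOn (Fd z s d) (Ioi 0) := by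
  have hd : (0 : ℝ) < (d + 1 : ℝ)⁻¹ := by positivity
  have h1 : IntegrableOn (fun x => Fd z s 0 ((d + 1 : ℝ)⁻¹ * x)) (Ioi 0) := by
    rw [integrableOn_Ioi_comp_mul_left_iff (fun y => Fd z s 0 y) 0 hd, mul_zero]
    exact Fd0_integrable hε hC hs
  have h2 := h1.const_mul (((d + 1 : ℝ) : ℂ) ^ (-s - 1))
  refine (integrableOn_congr_fun ?_ measurableSet_Ioi).2 h2
  intro x hx
  exact Fd_scale z s d hx

lemma tsum_Fd (z : ℝ) (s : ℂ) {x : ℝ} (hx : 0 < x) :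
    ∑' d : ℕ, ((af z (d + 1) : ℝ) : ℂ) * Fd z s d x =
      if 1 ≤ x then (x : ℂ) ^ (-s - 1) else 0 := by
  have hfl : ∀ d : ℕ, ⌊x / (d + 1 : ℝ)⌋₊ = ⌊x⌋₊ / (d + 1) := by
    intro d
    have := Nat.floor_div_natCast x (d + 1)
    push_cast at this
    exact this
  have h1 : ∑' d : ℕ, ((af z (d + 1) : ℝ) : ℂ) * Fd z s d x
      = ∑ d ∈ Finset.range ⌊x⌋₊, ((af z (d + 1) : ℝ) : ℂ) * Fd z s d x := by
    apply tsum_eq_sum
    intro d hd
    rw [Finset.mem_range, not_lt] at hd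
    rw [Fd, hfl, Nat.div_eq_of_lt (by omega), T_zero]
    simp
  rw [h1]
  have h2 : ∑ d ∈ Finset.range ⌊x⌋₊, ((af z (d + 1) : ℝ) : ℂ) * Fd z s d x
      = ((∑ d ∈ Finset.Ioc 0 ⌊x⌋₊, af z d * T z (⌊x⌋₊ / d) : ℝ) : ℂ) * (x : ℂ) ^ (-s - 1) := by
    have h3 : ∑ d ∈ Finset.Ioc 0 ⌊x⌋₊, af z d * T z (⌊x⌋₊ / d)
        = ∑ d ∈ Finset.range ⌊x⌋₊, af z (d + 1) * T z (⌊x⌋₊ / (d + 1)) := by
      rw [Finset.range_eq_Ico, Finset.sum_Ico_add' (fun d => af z d * T z (⌊x⌋₊ / d)) 0 ⌊x⌋₊ 1]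
      congr 1
    rw [h3]
    push_cast
    rw [Finset.sum_mul]
    refine Finset.sum_congr rfl fun d _ => ?_
    rw [Fd, hfl]
    ring
  rw [h2]
  split_ifs with h
  · rw [T_rec' z ((Nat.one_le_floor_iff x).2 h)]
    simp
  · rw [Nat.floor_eq_zero.2 (not_le.1 h)]
    simp

/-- If the summatory function of `b_z` is `O(n^{1+ε})` for all `ε > 0` then
`1 - z (ζ(s) - 1) ≠ 0` for `Re s > 1`. -/
theorem zeta_ne {z : ℝ} (hT : ∀ ε : ℝ, 0 < ε → ∃ C : ℝ, ∀ n : ℕ, 1 ≤ n →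
    |T z n| ≤ C * (n : ℝ) ^ (1 + ε)) {s : ℂ} (hs : 1 < s.re) :
    1 - z * (riemannZeta s - 1) ≠ 0 := by
  intro h0
  set ε := (s.re - 1) / 2 with hε
  have hε0 : 0 < ε := by rw [hε]; linarith
  have hsε : 1 + ε < s.re := by rw [hε]; linarith
  obtain ⟨C, hC⟩ := hT ε hε0
  set I0 := ∫ x in Ioi (0 : ℝ), Fd z s 0 x with hI0
  have hζ : HasSum (fun d : ℕ => ((d + 1 : ℝ) : ℂ) ^ (-s)) (riemannZeta s) := by
    have h1 := zeta_eq_tsum_one_div_nat_add_one_cpow hs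
    have h2 : Summable (fun d : ℕ => 1 / ((d : ℂ) + 1) ^ s) := by
      have := (summable_nat_add_iff 1).2 (Complex.summable_one_div_nat_cpow.2 hs)
      refine this.congr fun d => ?_
      push_cast
      rfl
    rw [h1]
    have h3 := h2.hasSum
    refine h3.congr_fun ?_
    intro d
    rw [Complex.cpow_neg]
    push_cast
    rw [one_div]
  -- coefficients
  have haf : ∀ d : ℕ, ((af z (d + 1) : ℝ) : ℂ) = (if d = 0 then (1 + z : ℂ) else 0) - z := by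
    intro d
    rcases d with _ | d
    · simp [af_one]
    · rw [af_of_two_le z (by omega), if_neg (by omega)]
      push_cast
      ring
  have hsumα : HasSum (fun d : ℕ => ((af z (d + 1) : ℝ) : ℂ) * ((d + 1 : ℝ) : ℂ) ^ (-s))
      ((1 + z) - z * riemannZeta s) := by
    have h1 := (hasSum_ite_eq (0 : ℕ) ((1 + z : ℂ))).sub (hζ.mul_left (z : ℂ))
    refine h1.congr_fun ?_
    intro d
    rw [haf]
    rcases d with _ | d
    · simp
    · simp
  have hint : ∀ d : ℕ, Integrable (fun x => ((af z (d + 1) : ℝ) : ℂ) * Fd z s d x)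
      (volume.restrict (Ioi 0)) := fun d => (Fd_integrable hε0 hC hsε d).const_mul _
  have hnorm : Summable fun d : ℕ => ∫ x in Ioi (0 : ℝ), ‖((af z (d + 1) : ℝ) : ℂ) * Fd z s d x‖ := by
    have h1 : ∀ d : ℕ, ∫ x in Ioi (0 : ℝ), ‖((af z (d + 1) : ℝ) : ℂ) * Fd z s d x‖
        = |af z (d + 1)| * ((d + 1 : ℝ) ^ (-s.re) * ∫ x in Ioi (0 : ℝ), ‖Fd z s 0 x‖) := by
      intro d
      rw [← integral_norm_Fd, ← integral_const_mul]
      congr 1
      funext x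
      rw [norm_mul, Complex.norm_real, Real.norm_eq_abs]
    have h2 : Summable fun d : ℕ => (1 + |z|) * ((d + 1 : ℝ) ^ (-s.re) * ∫ x in Ioi (0 : ℝ), ‖Fd z s 0 x‖) := by
      apply Summable.mul_left
      apply Summable.mul_right
      have h3 := (summable_nat_add_iff 1).2 (Real.summable_nat_rpow.2 (by linarith : -s.re < -1))
      refine h3.congr fun d => ?_
      push_cast
      rfl
    refine Summable.of_nonneg_of_le (fun d => integral_nonneg fun x => norm_nonneg _) ?_ h2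
    intro d
    rw [h1]
    apply mul_le_mul_of_nonneg_right
    · rcases d with _ | d
      · rw [zero_add, af_one, abs_one]
        have := abs_nonneg z
        linarith
      · rw [af_of_two_le z (by omega), abs_neg]
        linarith
    · have : 0 ≤ ∫ x in Ioi (0 : ℝ), ‖Fd z s 0 x‖ := integral_nonneg fun x => norm_nonneg _
      positivity
  have hmain := hasSum_integral_of_summable_integral_norm hint hnorm
  have hL : (fun d : ℕ => ∫ x in Ioi (0 : ℝ), ((af z (d + 1) : ℝ) : ℂ) * Fd z s d x)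
      = fun d : ℕ => (((af z (d + 1) : ℝ) : ℂ) * ((d + 1 : ℝ) : ℂ) ^ (-s)) * I0 := by
    funext d
    rw [integral_const_mul, integral_Fd, mul_assoc]
  have hR : ∫ x in Ioi (0 : ℝ), ∑' d : ℕ, ((af z (d + 1) : ℝ) : ℂ) * Fd z s d x = 1 / s := by
    have h1 : ∫ x in Ioi (0 : ℝ), ∑' d : ℕ, ((af z (d + 1) : ℝ) : ℂ) * Fd z s d x
        = ∫ x in Ioi (0 : ℝ), (Ici (1 : ℝ)).indicator (fun x : ℝ => (x : ℂ) ^ (-s - 1)) x := by
      apply setIntegral_congr_fun measurableSet_Ioi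
      intro x hx
      simp only
      rw [tsum_Fd z s hx]
      by_cases h : 1 ≤ x
      · rw [if_pos h, Set.indicator_of_mem (show x ∈ Ici (1 : ℝ) from h)]
      · rw [if_neg h, Set.indicator_of_notMem (show x ∉ Ici (1 : ℝ) from h)]
    rw [h1, setIntegral_indicator measurableSet_Ici]
    have h2 : Ioi (0 : ℝ) ∩ Ici 1 = Ici 1 := by
      ext x
      simp only [mem_inter_iff, mem_Ioi, mem_Ici]
      constructor
      · exact fun h => h.2
      · intro h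
        exact ⟨by linarith, h⟩
    rw [h2, integral_Ici_eq_integral_Ioi, integral_Ioi_cpow_of_lt (by simp; linarith) one_pos]
    have : (-s - 1 + 1) = -s := by ring
    rw [this]
    simp
  rw [hL, hR] at hmain
  have huniq := hmain.unique (hsumα.mul_right I0)
  have h5 : (1 + z : ℂ) - z * riemannZeta s = 0 := by
    rw [← h0]; ring
  rw [h5, zero_mul] at huniq
  have hs0 : s ≠ 0 := by
    intro h
    rw [h] at hs
    simp at hs
    linarith
  exact (one_div_ne_zero hs0) huniq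

end Pool.Agent.H486R2.Red
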