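import Mathlib
import Pool.Agent.Helper352.Kron

set_option autoImplicit false

/-!
# `ζ` takes arbitrarily large negative real values in the half plane `Re s > 1`.
-/

namespace Pool.Agent.H486R2.Zneg

open Filter Topology Set

lemma fact_prod {ι : Type*} [Fintype ι] (p : ι → ℕ) (hp : ∀ i, (p i).Prime)
    (hinj : Function.Injective p) (a : ι → ℕ) (j : ι) :
    (∏ i, p i ^ a i).factorization (p j) = a j := by
  rw [Nat.factorization_prod (fun i _ => pow_ne_zero _ (hp i).ne_zero)]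
  rw [Finsupp.finsetSum_apply]
  rw [Finset.sum_eq_single j]
  · rw [(hp j).factorization_pow]; simp
  · intro i _ hij
    rw [(hp i).factorization_pow]
    exact Finsupp.single_eq_of_ne (fun h => hij (hinj h.symm))
  · simp

lemma log_indep {ι : Type*} [Fintype ι] (p : ι → ℕ) (hp : ∀ i, (p i).Prime)
    (hinj : Function.Injective p) (c : ι → ℤ) (h : ∑ i, (c i : ℝ) * Real.log (p i) = 0) :
    ∀ i, c i = 0 := by
  set a : ι → ℕ := fun i => (c i).toNat with ha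
  set b : ι → ℕ := fun i => (-c i).toNat with hb
  have hc : ∀ i, (c i : ℝ) = (a i : ℝ) - (b i : ℝ) := by
    intro i
    have : c i = (a i : ℤ) - (b i : ℤ) := by
      simp only [ha, hb]
      omega
    exact_mod_cast congrArg (Int.cast : ℤ → ℝ) this
  have hlogprod : ∀ e : ι → ℕ, Real.log ((∏ i, p i ^ e i : ℕ) : ℝ) =
      ∑ i, (e i : ℝ) * Real.log (p i) := by
    intro e
    push_cast
    rw [Real.log_prod]
    · refine Finset.sum_congr rfl fun i _ => ?_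
      rw [Real.log_pow]
    · intro i _
      have := (hp i).pos
      positivity
  have h1 : Real.log ((∏ i, p i ^ a i : ℕ) : ℝ) = Real.log ((∏ i, p i ^ b i : ℕ) : ℝ) := by
    rw [hlogprod, hlogprod, ← sub_eq_zero, ← Finset.sum_sub_distrib, ← h]
    refine Finset.sum_congr rfl fun i _ => ?_
    rw [hc i]; ring
  have hpos : ∀ e : ι → ℕ, (0 : ℝ) < ((∏ i, p i ^ e i : ℕ) : ℝ) := by
    intro e
    have : 0 < ∏ i, p i ^ e i := Finset.prod_pos fun i _ => pow_pos (hp i).pos _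
    exact_mod_cast this
  have h2 : ((∏ i, p i ^ a i : ℕ) : ℝ) = ((∏ i, p i ^ b i : ℕ) : ℝ) :=
    Real.log_injOn_pos (hpos a) (hpos b) h1
  have h3 : (∏ i, p i ^ a i : ℕ) = (∏ i, p i ^ b i : ℕ) := by exact_mod_cast h2
  intro j
  have h4 := fact_prod p hp hinj a j
  have h5 := fact_prod p hp hinj b j
  rw [h3, h5] at h4
  simp only [ha, hb] at h4
  omega

/-- `V(σ) = ∑ p^{-σ}` -/
noncomputable def V (σ : ℝ) : ℝ := ∑' p : Nat.Primes, ((p : ℕ) : ℝ) ^ (-σ)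

/-- `W(s) = ∑ -log(1-p^{-s})` -/
noncomputable def W (s : ℂ) : ℂ := ∑' p : Nat.Primes, -Complex.log (1 - ((p : ℕ) : ℂ) ^ (-s))

lemma exp_W {s : ℂ} (hs : 1 < s.re) : Complex.exp (W s) = riemannZeta s :=
  riemannZeta_eulerProduct_exp_log hs

lemma norm_pcpow (p : Nat.Primes) (s : ℂ) :
    ‖((p : ℕ) : ℂ) ^ (-s)‖ = ((p : ℕ) : ℝ) ^ (-s.re) := by
  rw [Complex.norm_natCast_cpow_of_pos p.2.pos]
  simp

lemma summable_V {σ : ℝ} (hσ : 1 < σ) : Summable (fun p : Nat.Primes => ((p : ℕ) : ℝ) ^ (-σ)) :=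
  Nat.Primes.summable_rpow.2 (by linarith)

lemma prpow_le_half (p : Nat.Primes) {σ : ℝ} (hσ : 1 ≤ σ) : ((p : ℕ) : ℝ) ^ (-σ) ≤ 1 / 2 := by
  have hp2 : (2 : ℝ) ≤ ((p : ℕ) : ℝ) := by exact_mod_cast p.2.two_le
  calc ((p : ℕ) : ℝ) ^ (-σ) ≤ ((p : ℕ) : ℝ) ^ (-1 : ℝ) :=
        Real.rpow_le_rpow_of_exponent_le (by linarith) (by linarith)
    _ = (((p : ℕ) : ℝ))⁻¹ := Real.rpow_neg_one _
    _ ≤ 2⁻¹ := inv_anti₀ (by norm_num) hp2
    _ = 1 / 2 := by norm_num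

lemma term_err (p : Nat.Primes) {s : ℂ} (hs : 1 < s.re) :
    ‖-Complex.log (1 - ((p : ℕ) : ℂ) ^ (-s)) - ((p : ℕ) : ℂ) ^ (-s)‖ ≤
      ((p : ℕ) : ℝ) ^ (-2 : ℝ) := by
  set z : ℂ := ((p : ℕ) : ℂ) ^ (-s) with hz
  have hzn : ‖z‖ = ((p : ℕ) : ℝ) ^ (-s.re) := norm_pcpow p s
  have hp0 : (0 : ℝ) < ((p : ℕ) : ℝ) := by exact_mod_cast p.2.pos
  have hp1 : (1 : ℝ) ≤ ((p : ℕ) : ℝ) := by exact_mod_cast p.2.one_le
  have hhalf : ‖z‖ ≤ 1 / 2 := by rw [hzn]; exact prpow_le_half p hs.le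
  have h1 := Complex.norm_log_one_add_sub_self_le (z := -z) (by rw [norm_neg]; linarith)
  rw [norm_neg] at h1
  have h2 : ‖-Complex.log (1 - z) - z‖ = ‖Complex.log (1 + -z) - -z‖ := by
    rw [← norm_neg]
    congr 1
    rw [← sub_eq_add_neg]
    ring
  rw [h2]
  refine h1.trans ?_
  have h3 : (1 - ‖z‖)⁻¹ ≤ 2 := by
    have : (1 - ‖z‖)⁻¹ ≤ (1 / 2 : ℝ)⁻¹ := inv_anti₀ (by norm_num) (by linarith)
    linarith [this, (by norm_num : ((1 : ℝ) / 2)⁻¹ = 2)]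
  have h4 : ‖z‖ ^ 2 ≤ ((p : ℕ) : ℝ) ^ (-2 : ℝ) := by
    rw [hzn, ← Real.rpow_natCast, ← Real.rpow_mul hp0.le]
    apply Real.rpow_le_rpow_of_exponent_le hp1
    push_cast
    linarith
  have h5 : 0 ≤ ‖z‖ ^ 2 := by positivity
  nlinarith

lemma summable_pcpow {s : ℂ} (hs : 1 < s.re) :
    Summable (fun p : Nat.Primes => ((p : ℕ) : ℂ) ^ (-s)) := by
  apply Summable.of_norm
  refine (summable_V hs).congr fun p => ?_
  rw [norm_pcpow]

lemma summable_two : Summable (fun p : Nat.Primes => ((p : ℕ) : ℝ) ^ (-2 : ℝ)) :=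
  Nat.Primes.summable_rpow.2 (by norm_num)

lemma summable_err {s : ℂ} (hs : 1 < s.re) : Summable (fun p : Nat.Primes =>
    -Complex.log (1 - ((p : ℕ) : ℂ) ^ (-s)) - ((p : ℕ) : ℂ) ^ (-s)) :=
  Summable.of_norm_bounded summable_two (fun p => term_err p hs)

lemma W_sub (s : ℂ) (hs : 1 < s.re) :
    ‖W s - ∑' p : Nat.Primes, ((p : ℕ) : ℂ) ^ (-s)‖ ≤ V 2 := by
  have h1 : Summable (fun p : Nat.Primes => -Complex.log (1 - ((p : ℕ) : ℂ) ^ (-s))) := by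
    have := (summable_err hs).add (summable_pcpow hs)
    refine this.congr fun p => ?_
    ring
  unfold W
  rw [← h1.tsum_sub (summable_pcpow hs)]
  exact tsum_of_norm_bounded summable_two.hasSum (fun p => term_err p hs)

/-- continuity of `σ ↦ W(σ+it)` on `[σ₁, 2]`. -/
lemma W_cont {σ1 : ℝ} (hσ1 : 1 < σ1) (t : ℝ) :
    ContinuousOn (fun σ : ℝ => W (σ + t * Complex.I)) (Icc σ1 2) := by
  unfold W
  refine continuousOn_tsum (u := fun p : Nat.Primes => 3 / 2 * ((p : ℕ) : ℝ) ^ (-σ1)) ?_ ?_ ?_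
  · intro p
    have hp0 : ((p : ℕ) : ℂ) ≠ 0 := by exact_mod_cast p.2.ne_zero
    intro σ hσ
    apply ContinuousWithinAt.neg
    apply ContinuousWithinAt.clog
    · apply ContinuousWithinAt.sub continuousWithinAt_const
      apply ContinuousWithinAt.const_cpow
      · fun_prop
      · exact Or.inl hp0
    · left
      have h1 : ‖((p : ℕ) : ℂ) ^ (-((σ : ℂ) + t * Complex.I))‖ ≤ 1 / 2 := by
        rw [norm_pcpow]
        apply prpow_le_half
        simp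
        linarith [hσ.1]
      have h2 := Complex.abs_re_le_norm (((p : ℕ) : ℂ) ^ (-((σ : ℂ) + t * Complex.I)))
      have h3 := le_abs_self (((p : ℕ) : ℂ) ^ (-((σ : ℂ) + t * Complex.I))).re
      simp only [Complex.sub_re, Complex.one_re]
      linarith
  · exact (summable_V hσ1).mul_left _
  · intro p σ hσ
    have hre : ((σ : ℂ) + t * Complex.I).re = σ := by simp
    have hp1 : (1 : ℝ) ≤ ((p : ℕ) : ℝ) := by exact_mod_cast p.2.one_le
    have h1 : ‖((p : ℕ) : ℂ) ^ (-((σ : ℂ) + t * Complex.I))‖ = ((p : ℕ) : ℝ) ^ (-σ) := by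
      rw [norm_pcpow, hre]
    have h2 : ((p : ℕ) : ℝ) ^ (-σ) ≤ ((p : ℕ) : ℝ) ^ (-σ1) :=
      Real.rpow_le_rpow_of_exponent_le hp1 (by linarith [hσ.1])
    have h3 : ((p : ℕ) : ℝ) ^ (-σ) ≤ 1 / 2 := prpow_le_half p (by linarith [hσ.1])
    have h4 := Complex.norm_log_one_add_half_le_self
      (z := -((p : ℕ) : ℂ) ^ (-((σ : ℂ) + t * Complex.I))) (by rw [norm_neg, h1]; exact h3)
    rw [norm_neg, h1, ← sub_eq_add_neg] at h4
    rw [norm_neg]
    linarith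

/-- the unit number `e^{iπ/4}` -/
noncomputable def ω : ℂ := Complex.exp ((Real.pi / 4 : ℝ) * Complex.I)

lemma ω_re : ω.re = Real.sqrt 2 / 2 := by
  rw [ω, Complex.exp_ofReal_mul_I_re, Real.cos_pi_div_four]

lemma ω_im : ω.im = Real.sqrt 2 / 2 := by
  rw [ω, Complex.exp_ofReal_mul_I_im, Real.sin_pi_div_four]

lemma norm_ω : ‖ω‖ = 1 := Complex.norm_exp_ofReal_mul_I _

/-- Kronecker: there is `t` with `p^{-it}` close to `ω` for all `p` in a finite set of primes. -/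
lemma exists_t (P : Finset Nat.Primes) {δ : ℝ} (hδ : 0 < δ) :
    ∃ t : ℝ, ∀ p ∈ P, ‖((p : ℕ) : ℂ) ^ (-(t * Complex.I)) - ω‖ ≤ δ := by
  classical
  have hpi := Real.pi_pos
  obtain ⟨t, _, ht⟩ := Pool.Agent.Helper352.kronecker (ι := {p // p ∈ P})
    (fun p => Real.log ((p : Nat.Primes) : ℕ) / (2 * Real.pi)) (fun _ => -1 / 8) (by
      intro c hc
      refine ⟨0, ?_⟩
      have h1 : ∑ i : {p // p ∈ P}, (c i : ℝ) * Real.log ((i : Nat.Primes) : ℕ) = 0 := by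
        have h2 : ∑ i : {p // p ∈ P}, (c i : ℝ) * (Real.log ((i : Nat.Primes) : ℕ) / (2 * Real.pi))
          = (∑ i : {p // p ∈ P}, (c i : ℝ) * Real.log ((i : Nat.Primes) : ℕ)) / (2 * Real.pi) := by
          rw [Finset.sum_div]
          refine Finset.sum_congr rfl fun i _ => ?_
          ring
        rw [h2] at hc
        rcases div_eq_zero_iff.1 hc with h | h
        · exact h
        · exfalso; linarith
      have h3 := log_indep (fun i : {p // p ∈ P} => ((i : Nat.Primes) : ℕ))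
        (fun i => i.1.2) (fun i j hij => Subtype.ext (Subtype.ext hij)) c h1
      simp [h3]) (δ / (2 * Real.pi)) (by positivity) 0
  refine ⟨t, fun p hp => ?_⟩
  obtain ⟨n, hn⟩ := ht ⟨p, hp⟩
  simp only at hn
  set e : ℝ := t * (Real.log ((p : Nat.Primes) : ℕ) / (2 * Real.pi)) - -1 / 8 - n with he
  have hp0 : ((p : ℕ) : ℂ) ≠ 0 := by exact_mod_cast p.2.ne_zero
  have h1 : ((p : ℕ) : ℂ) ^ (-(t * Complex.I)) = ω * Complex.exp (Complex.I * (-(2 * Real.pi * e) : ℝ)) := by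
    rw [Complex.cpow_def_of_ne_zero hp0, ω, ← Complex.exp_add, ← Complex.natCast_log]
    have h2 : t * Real.log ((p : ℕ) : ℝ) = 2 * Real.pi * e - Real.pi / 4 + n * (2 * Real.pi) := by
      rw [he]
      field_simp
      ring
    have h3 : ((Real.log ((p : ℕ) : ℝ) : ℝ) : ℂ) * -(t * Complex.I) =
      ((Real.pi / 4 : ℝ) * Complex.I + Complex.I * (-(2 * Real.pi * e) : ℝ)) + (-n : ℤ) * (2 * Real.pi * Complex.I) := by
      have h4 : ((Real.log ((p : ℕ) : ℝ) : ℝ) : ℂ) * -(t * Complex.I) = 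
          -((t * Real.log ((p : ℕ) : ℝ) : ℝ) : ℂ) * Complex.I := by
        push_cast; ring
      rw [h4, h2]
      push_cast
      ring
    rw [h3, Complex.exp_add, Complex.exp_int_mul_two_pi_mul_I, mul_one]
  rw [h1]
  have h5 : ω * Complex.exp (Complex.I * (-(2 * Real.pi * e) : ℝ)) - ω
      = ω * (Complex.exp (Complex.I * (-(2 * Real.pi * e) : ℝ)) - 1) := by ring
  rw [h5, norm_mul, norm_ω, one_mul]
  refine (Real.norm_exp_I_mul_ofReal_sub_one_le).trans ?_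
  rw [Real.norm_eq_abs, abs_neg, abs_mul, abs_of_pos (by positivity : (0 : ℝ) < 2 * Real.pi)]
  have h6 : 2 * Real.pi * |e| ≤ 2 * Real.pi * (δ / (2 * Real.pi)) :=
    mul_le_mul_of_nonneg_left hn.le (by positivity)
  have h7 : 2 * Real.pi * (δ / (2 * Real.pi)) = δ := by field_simp
  linarith

/-- For `σ₁ > 1` there is `t` with `∑ p^{-σ-it} = ω V(σ) + O(2)` for all `σ ≥ σ₁`. -/
lemma exists_t_unif {σ1 : ℝ} (hσ1 : 1 < σ1) : ∃ t : ℝ, ∀ σ : ℝ, σ1 ≤ σ →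
    ‖(∑' p : Nat.Primes, ((p : ℕ) : ℂ) ^ (-((σ : ℂ) + t * Complex.I))) - ω * (V σ : ℝ)‖ ≤ 2 := by
  classical
  have hV1 := summable_V hσ1
  -- tail
  obtain ⟨P, hP⟩ : ∃ P : Finset Nat.Primes,
      ∑' p : ((P : Set Nat.Primes)ᶜ : Set Nat.Primes), ((p : ℕ) : ℝ) ^ (-σ1) ≤ 1 / 2 := by
    have h1 := tendsto_tsum_compl_atTop_zero (fun p : Nat.Primes => ((p : ℕ) : ℝ) ^ (-σ1))
    have h2 := (h1.eventually_le_const (by norm_num : (0 : ℝ) < 1 / 2)).exists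
    obtain ⟨P, hP⟩ := h2
    exact ⟨P, hP⟩
  have hV0 : 0 ≤ V σ1 := tsum_nonneg fun p => by positivity
  obtain ⟨t, ht⟩ := exists_t P (δ := 1 / (V σ1 + 1)) (by positivity)
  refine ⟨t, fun σ hσ => ?_⟩
  have hσ' : 1 < σ := by linarith
  have hs : 1 < ((σ : ℂ) + t * Complex.I).re := by simpa using hσ'
  have hsplit : ∀ p : Nat.Primes, ((p : ℕ) : ℂ) ^ (-((σ : ℂ) + t * Complex.I)) =
      ((((p : ℕ) : ℝ) ^ (-σ) : ℝ) : ℂ) * ((p : ℕ) : ℂ) ^ (-(t * Complex.I)) := by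
    intro p
    have hp0 : ((p : ℕ) : ℂ) ≠ 0 := by exact_mod_cast p.2.ne_zero
    rw [neg_add, Complex.cpow_add _ _ hp0, Complex.ofReal_cpow (by positivity)]
    push_cast
    rfl
  have h1 : ω * (V σ : ℝ) = ∑' p : Nat.Primes, ω * ((((p : ℕ) : ℝ) ^ (-σ) : ℝ) : ℂ) := by
    rw [V, Complex.ofReal_tsum, tsum_mul_left]
  have hsumω : Summable (fun p : Nat.Primes => ω * ((((p : ℕ) : ℝ) ^ (-σ) : ℝ) : ℂ)) := by
    apply Summable.mul_left
    exact Complex.summable_ofReal.2 (summable_V hσ')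
  rw [h1, ← (summable_pcpow hs).tsum_sub hsumω]
  have hterm : ∀ p : Nat.Primes, ((p : ℕ) : ℂ) ^ (-((σ : ℂ) + t * Complex.I)) -
      ω * ((((p : ℕ) : ℝ) ^ (-σ) : ℝ) : ℂ) =
      ((((p : ℕ) : ℝ) ^ (-σ) : ℝ) : ℂ) * (((p : ℕ) : ℂ) ^ (-(t * Complex.I)) - ω) := by
    intro p
    rw [hsplit]; ring
  have hle : ∀ p : Nat.Primes, ((p : ℕ) : ℝ) ^ (-σ) ≤ ((p : ℕ) : ℝ) ^ (-σ1) := by
    intro p
    have hp1 : (1 : ℝ) ≤ ((p : ℕ) : ℝ) := by exact_mod_cast p.2.one_le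
    exact Real.rpow_le_rpow_of_exponent_le hp1 (by linarith)
  have hnorm1 : ∀ p ∈ P, ‖((p : ℕ) : ℂ) ^ (-((σ : ℂ) + t * Complex.I)) -
      ω * ((((p : ℕ) : ℝ) ^ (-σ) : ℝ) : ℂ)‖ ≤ ((p : ℕ) : ℝ) ^ (-σ1) * (1 / (V σ1 + 1)) := by
    intro p hp
    rw [hterm, norm_mul, Complex.norm_real, Real.norm_eq_abs,
      abs_of_nonneg (by positivity : (0 : ℝ) ≤ ((p : ℕ) : ℝ) ^ (-σ))]
    exact mul_le_mul (hle p) (ht p hp) (norm_nonneg _) (by positivity)
  have hnorm2 : ∀ p : Nat.Primes, ‖((p : ℕ) : ℂ) ^ (-((σ : ℂ) + t * Complex.I)) -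
      ω * ((((p : ℕ) : ℝ) ^ (-σ) : ℝ) : ℂ)‖ ≤ 2 * ((p : ℕ) : ℝ) ^ (-σ1) := by
    intro p
    rw [hterm, norm_mul, Complex.norm_real, Real.norm_eq_abs,
      abs_of_nonneg (by positivity : (0 : ℝ) ≤ ((p : ℕ) : ℝ) ^ (-σ)), mul_comm]
    apply mul_le_mul _ (hle p) (by positivity) (by norm_num)
    calc ‖((p : ℕ) : ℂ) ^ (-(t * Complex.I)) - ω‖ ≤ ‖((p : ℕ) : ℂ) ^ (-(t * Complex.I))‖ + ‖ω‖ :=
          norm_sub_le _ _
      _ = 2 := by
          rw [norm_pcpow, norm_ω]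
          simp
          norm_num
  -- split the sum
  have hsummable : Summable (fun p : Nat.Primes => ((p : ℕ) : ℂ) ^ (-((σ : ℂ) + t * Complex.I)) -
      ω * ((((p : ℕ) : ℝ) ^ (-σ) : ℝ) : ℂ)) := (summable_pcpow hs).sub hsumω
  rw [← hsummable.sum_add_tsum_compl (s := P)]
  have hA : ‖∑ p ∈ P, (((p : ℕ) : ℂ) ^ (-((σ : ℂ) + t * Complex.I)) -
      ω * ((((p : ℕ) : ℝ) ^ (-σ) : ℝ) : ℂ))‖ ≤ 1 := by
    refine (norm_sum_le _ _).trans ?_
    refine (Finset.sum_le_sum hnorm1).trans ?_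
    rw [← Finset.sum_mul, mul_one_div, div_le_one (by positivity)]
    have := hV1.sum_le_tsum P (fun p _ => by positivity)
    unfold V
    linarith
  have hB : ‖∑' p : ((P : Set Nat.Primes)ᶜ : Set Nat.Primes),
      (((p : ℕ) : ℂ) ^ (-((σ : ℂ) + t * Complex.I)) -
      ω * ((((p : ℕ) : ℝ) ^ (-σ) : ℝ) : ℂ))‖ ≤ 1 := by
    have hsub : Summable (fun p : ((P : Set Nat.Primes)ᶜ : Set Nat.Primes) =>
        2 * ((p : ℕ) : ℝ) ^ (-σ1)) :=
      (hV1.subtype _).mul_left 2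
    have h2 := tsum_of_norm_bounded hsub.hasSum
      (fun p : ((P : Set Nat.Primes)ᶜ : Set Nat.Primes) => hnorm2 p)
    refine h2.trans ?_
    rw [tsum_mul_left]
    linarith
  exact (norm_add_le _ _).trans ((add_le_add hA hB).trans (by norm_num))

/-- `V` is unbounded near `1`. -/
lemma V_unbounded (B : ℝ) : ∃ σ : ℝ, 1 < σ ∧ σ < 2 ∧ B ≤ V σ := by
  obtain ⟨P, hP⟩ : ∃ P : Finset Nat.Primes, B + 1 ≤ ∑ p ∈ P, 1 / ((p : ℕ) : ℝ) := by
    by_contra hcon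
    push Not at hcon
    apply Nat.Primes.not_summable_one_div
    exact summable_of_sum_le (fun p => by positivity) (fun P => (hcon P).le)
  have hcont : Continuous (fun σ : ℝ => ∑ p ∈ P, ((p : ℕ) : ℝ) ^ (-σ)) := by
    apply continuous_finsetSum
    intro p _
    have hp0 : ((p : ℕ) : ℝ) ≠ 0 := by exact_mod_cast p.2.ne_zero
    exact Continuous.rpow continuous_const continuous_neg (fun x => Or.inl hp0)
  have h1 : ∀ᶠ σ in 𝓝 (1 : ℝ), B < ∑ p ∈ P, ((p : ℕ) : ℝ) ^ (-σ) := by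
    apply hcont.continuousAt.eventually_const_lt
    have : ∑ p ∈ P, ((p : ℕ) : ℝ) ^ (-(1 : ℝ)) = ∑ p ∈ P, 1 / ((p : ℕ) : ℝ) := by
      refine Finset.sum_congr rfl fun p _ => ?_
      rw [Real.rpow_neg_one, one_div]
    show B < ∑ p ∈ P, ((p : ℕ) : ℝ) ^ (-(1 : ℝ))
    rw [this]
    linarith
  have h2 : ∀ᶠ σ in 𝓝[>] (1 : ℝ), B < ∑ p ∈ P, ((p : ℕ) : ℝ) ^ (-σ) :=
    h1.filter_mono nhdsWithin_le_nhds
  have h3 : ∀ᶠ σ in 𝓝[>] (1 : ℝ), σ ∈ Ioo (1 : ℝ) 2 := Ioo_mem_nhdsGT (by norm_num)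
  obtain ⟨σ, hσ1, hσ2⟩ := (h2.and h3).exists
  refine ⟨σ, hσ2.1, hσ2.2, ?_⟩
  have := (summable_V hσ2.1).sum_le_tsum P (fun p _ => by positivity)
  unfold V
  linarith

/-- `ζ` takes arbitrarily large negative real values in the half plane `Re s > 1`. -/
theorem zeta_neg_large (X : ℝ) : ∃ s : ℂ, 1 < s.re ∧ ∃ x : ℝ, X ≤ x ∧ riemannZeta s = -(x : ℂ) := by
  have hpi := Real.pi_pos
  have hpi3 := Real.pi_gt_three
  set K1 : ℝ := V 2 + 2 with hK1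
  have hV2 : 0 ≤ V 2 := tsum_nonneg fun p => by positivity
  -- choose k
  obtain ⟨k, hk⟩ : ∃ k : ℕ, 2 * K1 + 2 * K1 + |X| + 1 ≤ (2 * k + 1) * Real.pi := by
    obtain ⟨k, hk⟩ := exists_nat_ge (2 * K1 + 2 * K1 + |X| + 1)
    refine ⟨k, hk.trans ?_⟩
    have : (0 : ℝ) ≤ k := Nat.cast_nonneg k
    nlinarith
  set Y : ℝ := (2 * k + 1) * Real.pi with hY
  have hXabs := abs_nonneg X
  have hsq2 : 0 < Real.sqrt 2 := by positivity
  have hsq2' : Real.sqrt 2 * Real.sqrt 2 = 2 := Real.mul_self_sqrt (by norm_num)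
  obtain ⟨σ1, hσ1, hσ2, hVσ⟩ := V_unbounded (Real.sqrt 2 * (Y + K1))
  obtain ⟨t, ht⟩ := exists_t_unif hσ1
  have hW : ∀ σ : ℝ, σ1 ≤ σ → ‖W (σ + t * Complex.I) - ω * (V σ : ℝ)‖ ≤ K1 := by
    intro σ hσ
    have hs : 1 < ((σ : ℂ) + t * Complex.I).re := by
      simp; linarith
    have h1 := W_sub _ hs
    have h2 := ht σ hσ
    calc ‖W (σ + t * Complex.I) - ω * (V σ : ℝ)‖
        = ‖(W (σ + t * Complex.I) - ∑' p : Nat.Primes, ((p : ℕ) : ℂ) ^ (-((σ : ℂ) + t * Complex.I)))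
          + ((∑' p : Nat.Primes, ((p : ℕ) : ℂ) ^ (-((σ : ℂ) + t * Complex.I))) - ω * (V σ : ℝ))‖ := by
          congr 1; ring
      _ ≤ _ := norm_add_le _ _
      _ ≤ K1 := by rw [hK1]; linarith
  have hre : ∀ σ : ℝ, σ1 ≤ σ → |(W (σ + t * Complex.I)).re - Real.sqrt 2 / 2 * V σ| ≤ K1 := by
    intro σ hσ
    have h1 := (Complex.abs_re_le_norm _).trans (hW σ hσ)
    rw [Complex.sub_re, Complex.re_mul_ofReal, ω_re] at h1
    exact h1
  have him : ∀ σ : ℝ, σ1 ≤ σ → |(W (σ + t * Complex.I)).im - Real.sqrt 2 / 2 * V σ| ≤ K1 := by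
    intro σ hσ
    have h1 := (Complex.abs_im_le_norm _).trans (hW σ hσ)
    rw [Complex.sub_im, Complex.im_mul_ofReal, ω_im] at h1
    exact h1
  -- values at the end points
  have hσ1im : Y ≤ (W (σ1 + t * Complex.I)).im := by
    have h1 := abs_le.1 (him σ1 le_rfl)
    have h2 : Real.sqrt 2 / 2 * (Real.sqrt 2 * (Y + K1)) ≤ Real.sqrt 2 / 2 * V σ1 :=
      mul_le_mul_of_nonneg_left hVσ (by positivity)
    have h3 : Real.sqrt 2 / 2 * (Real.sqrt 2 * (Y + K1)) = Y + K1 := by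
      rw [← mul_assoc, div_mul_eq_mul_div, hsq2']; ring
    linarith [h1.1]
  have hsqle : Real.sqrt 2 / 2 ≤ 1 := by
    have : Real.sqrt 2 ≤ 2 := by
      rw [Real.sqrt_le_left (by norm_num)]; norm_num
    linarith
  have h2im : (W ((2 : ℝ) + t * Complex.I)).im ≤ Y := by
    have h1 := abs_le.1 (him 2 hσ2.le)
    have h2 : Real.sqrt 2 / 2 * V 2 ≤ 1 * V 2 := mul_le_mul_of_nonneg_right hsqle hV2
    linarith [h1.2]
  have hcont : ContinuousOn (fun σ : ℝ => (W (σ + t * Complex.I)).im) (Icc σ1 2) :=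
    Complex.continuous_im.comp_continuousOn (W_cont hσ1 t)
  obtain ⟨σ, hσ, hσY⟩ := intermediate_value_Icc' hσ2.le hcont ⟨h2im, hσ1im⟩
  simp only at hσY
  have hs : 1 < ((σ : ℂ) + t * Complex.I).re := by
    simp; linarith [hσ.1]
  refine ⟨(σ : ℂ) + t * Complex.I, hs, Real.exp (W (σ + t * Complex.I)).re, ?_, ?_⟩
  · have h1 := abs_le.1 (him σ hσ.1)
    have h2 := abs_le.1 (hre σ hσ.1)
    rw [hσY] at h1
    have h3 : X ≤ (W (σ + t * Complex.I)).re := by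
      linarith [h1.2, h2.1, le_abs_self X]
    have h4 := Real.add_one_le_exp (W (σ + t * Complex.I)).re
    linarith
  · rw [← exp_W hs]
    rw [Complex.exp_eq_exp_re_mul_sin_add_cos]
    rw [hσY, hY]
    have h5 : ((((2 * k + 1) * Real.pi : ℝ)) : ℂ) = Real.pi + k * (2 * Real.pi) := by
      push_cast; ring
    rw [h5, Complex.cos_add_nat_mul_two_pi, Complex.sin_add_nat_mul_two_pi, Complex.cos_pi,
      Complex.sin_pi]
    simp

end Pool.Agent.H486R2.Zneg
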