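import Pool.Agent.H486R2.RedF
import Pool.Agent.H486R2.RedG

set_option autoImplicit false

namespace Pool.Agent.H486R2.Red

open Filter Topology

lemma exists_D : ∃ r0 : ℝ, 0 < r0 ∧ ∀ r : ℝ, 0 < r → r < r0 → ∃ D : ℕ, 1 ≤ D ∧
    1 ≤ r * ∑ d ∈ Finset.Ioc 1 D, (d : ℝ) ^ (-(1 + r / 2)) := by
  have h1 := (tendsto_sub_mul_tsum_nat_rpow).eventually_const_lt (by norm_num : (3 / 4 : ℝ) < 1)
  rw [eventually_nhdsWithin_iff, Metric.eventually_nhds_iff] at h1
  obtain ⟨δ, hδ, h1⟩ := h1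
  refine ⟨min δ (1 / 2), lt_min hδ (by norm_num), fun r hr hr0 => ?_⟩
  have hrδ : r < δ := lt_of_lt_of_le hr0 (min_le_left _ _)
  have hr2 : r < 1 / 2 := lt_of_lt_of_le hr0 (min_le_right _ _)
  set s : ℝ := 1 + r / 2 with hs
  have hs1 : 1 < s := by rw [hs]; linarith
  have h2 := @h1 s (by
    rw [Real.dist_eq, hs]
    rw [abs_lt]
    constructor <;> linarith) hs1
  have h3 : s - 1 = r / 2 := by rw [hs]; ring
  rw [h3] at h2
  have hsum : Summable (fun n : ℕ => 1 / (n : ℝ) ^ s) := Real.summable_one_div_nat_rpow.2 hs1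
  have h4 : 3 / (2 * r) < ∑' n : ℕ, 1 / (n : ℝ) ^ s := by
    rw [div_lt_iff₀ (by positivity)]
    linarith
  have h5 := (hsum.hasSum.tendsto_sum_nat).eventually_const_lt h4
  obtain ⟨M, hM⟩ := (h5.and (eventually_ge_atTop 2)).exists
  obtain ⟨hM1, hM2⟩ := hM
  obtain ⟨D, rfl⟩ : ∃ D, M = D + 1 := ⟨M - 1, by omega⟩
  refine ⟨D, by omega, ?_⟩
  have h6 : ∑ i ∈ Finset.range (D + 1), 1 / (i : ℝ) ^ s
      = 1 + ∑ d ∈ Finset.Ioc 1 D, (d : ℝ) ^ (-s) := by
    have h7 : Finset.range (D + 1) = insert 0 (insert 1 (Finset.Ioc 1 D)) := by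
      ext x
      simp only [Finset.mem_range, Finset.mem_insert, Finset.mem_Ioc]
      omega
    rw [h7, Finset.sum_insert, Finset.sum_insert]
    · have h8 : ((0 : ℕ) : ℝ) ^ s = 0 := by
        rw [Nat.cast_zero, Real.zero_rpow (by linarith)]
      rw [h8]
      simp only [div_zero, Nat.cast_one, Real.one_rpow, zero_add]
      norm_num
      refine Finset.sum_congr rfl fun d hd => ?_
      rw [Real.rpow_neg (Nat.cast_nonneg d)]
    · simp
    · simp
  rw [h6] at hM1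
  have h9 : 3 / (2 * r) * r = 3 / 2 := by field_simp
  have h10 : 3 / (2 * r) * r < (1 + ∑ d ∈ Finset.Ioc 1 D, (d : ℝ) ^ (-s)) * r :=
    mul_lt_mul_of_pos_right hM1 hr
  rw [h9] at h10
  linarith

theorem main (R : ℝ) (N : ℕ) : ∃ n ≥ N, ∀ a b : ℂ,
    ∃ x ∈ (redC n).charpoly.roots - Multiset.replicate (n - Nat.log 2 n - 1) 1 - {a, b},
      R < ‖x‖ := by
  by_contra hcon
  push Not at hcon
  set R' := max R 1 with hR'
  have hR1 : 1 ≤ R' := le_max_right _ _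
  have hcard : ∀ n ≥ N,
      Multiset.card ((redC n).charpoly.roots.filter (fun x => R' < ‖x‖)) ≤ 2 := by
    intro n hn
    obtain ⟨a, b, hab⟩ := hcon n hn
    exact card_big hR1 (fun x hx => (hab x hx).trans (le_max_left _ _))
  obtain ⟨r0, hr0, hD⟩ := exists_D
  obtain ⟨s, hs, x, hx, hζ⟩ := Zneg.zeta_neg_large (max (1 / r0) (4 * (1 + R') ^ 2))
  have hx1 : 1 / r0 ≤ x := (le_max_left _ _).trans hx
  have hx2 : 4 * (1 + R') ^ 2 ≤ x := (le_max_right _ _).trans hx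
  have hR2 : 0 < (1 + R') ^ 2 := by positivity
  have hx0 : 0 < x := by linarith
  set r : ℝ := 1 / (1 + x) with hr
  have hrpos : 0 < r := by rw [hr]; positivity
  have hr1 : r ≤ 1 := by rw [hr, div_le_one (by positivity)]; linarith
  have hrr0 : r < r0 := by
    rw [hr, div_lt_iff₀ (by positivity)]
    rw [div_le_iff₀ hr0] at hx1
    nlinarith
  have hr2 : r ^ 2 * (1 + R') ^ 2 ≤ r / 4 := by
    have h1 : r * (1 + R') ^ 2 ≤ 1 / 4 := by
      rw [hr, div_mul_eq_mul_div, one_mul, div_le_div_iff₀ (by positivity) (by norm_num)]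
      linarith
    nlinarith
  obtain ⟨D, hD1, hD2⟩ := hD r hrpos hrr0
  have hT : ∀ ε : ℝ, 0 < ε → ∃ C : ℝ, ∀ n : ℕ, 1 ≤ n → |T (-r) n| ≤ C * (n : ℝ) ^ (1 + ε) :=
    fun ε hε => T_neg_bound hR1 hrpos hr1 hr2 hD1 hD2 hcard hε
  have h := zeta_ne hT hs
  apply h
  rw [hζ, hr]
  push_cast
  have : (1 + x : ℂ) ≠ 0 := by
    have : (1 + x : ℝ) ≠ 0 := by positivity
    exact_mod_cast this
  field_simp
  ring

end Pool.Agent.H486R2.Red
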